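import Pool.Agent.H20.TotDom

namespace Pool.Agent.Results.MP_7cc4cd_co.ThreeVertices
open Pool.Agent.H20

theorem result : ∃ G : SimpleGraph (Fin 7), G.Connected ∧ {v | ¬ InTriangle G v}.ncard ≤ 3 ∧
    matchingNum G < totalDomNum G :=
  ⟨TotDom.G, TotDom.conn, TotDom.tri, TotDom.lt⟩

end Pool.Agent.Results.MP_7cc4cd_co.ThreeVertices
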